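import Pool.Agent.Q41.SP.Stm5

/-!
# Project SP (helper41): elimination of the automorphism (SP-X2) and the degenerate case (SP-X3)
-/

set_option autoImplicit false

namespace Pool.Agent.Q187.SP

open Finset Polynomial
open Pool.Agent.Q41.SU
open Pool.Agent.Q41.SP

universe u

/-- reduction of the value -/
theorem constantCoeff_evalEval {E : Type u} [Field E] (G : (PowerSeries E)[X][X]) (x : E)
    (y : PowerSeries E) : PowerSeries.constantCoeff (G.evalEval (PowerSeries.C x) y) =
      (red G).evalEval x (PowerSeries.constantCoeff y) := by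
  unfold red
  have h := map_mapRingHom_evalEval (f := (PowerSeries.constantCoeff : PowerSeries E →+* E))
    G (PowerSeries.C x) y
  rw [← h]
  congr 1

theorem Dg_red {E : Type u} [Field E] {b H : ℕ} {G : (PowerSeries E)[X][X]} (h : Dg b H G) :
    Dg b H (red G) := by
  refine ⟨?_, fun i => ?_⟩
  · unfold red
    exact natDegree_map_le.trans h.1
  · unfold red
    rw [coeff_map, coe_mapRingHom]
    exact natDegree_map_le.trans (h.2 i)

theorem Va_mono {E : Type u} [Field E] {M M' : ℕ} (h : M' ≤ M) {G : (PowerSeries E)[X][X]} {x : E}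
    {y : PowerSeries E} (hv : Va M G x y) : Va M' G x y :=
  (pow_dvd_pow _ h).trans hv

theorem constantCoeff_tw {k E : Type u} [Field k] [Field E] [Algebra k E] (l r : ℕ) [ExpChar E l]
    (τ : E →ₐ[k] PowerSeries E) (hc : ∀ x, PowerSeries.constantCoeff (τ x) = x) (x : E) :
    PowerSeries.constantCoeff (tw l r τ x) = x ^ l ^ r := by
  unfold tw
  rw [RingHom.comp_apply, ← PowerSeries.coeff_zero_eq_constantCoeff_apply, PowerSeries.coeff_map,
    PowerSeries.coeff_zero_eq_constantCoeff_apply]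
  have : PowerSeries.constantCoeff ((τ : E →+* PowerSeries E) x) = x := hc x
  rw [this, iterateFrobenius_def]

theorem red_zero {E : Type u} [Field E] {M : ℕ} (hM : 1 ≤ M) {G : (PowerSeries E)[X][X]} {x : E}
    {y : PowerSeries E} (hv : Va M G x y) : (red G).evalEval x (PowerSeries.constantCoeff y) = 0 := by
  rw [← constantCoeff_evalEval]
  have h1 : (PowerSeries.X : PowerSeries E) ∣ G.evalEval (PowerSeries.C x) y := by
    have := Va_mono hM hv
    unfold Va at this
    rwa [pow_one] at this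
  exact PowerSeries.X_dvd_iff.mp h1

/-- **(X2)** -/
theorem elm (hcomp : S_compP.{u}) : S_elmP.{u} := by
  intro l r b H o k E _ _ _ _ _ τ D hτ h ho hho hh F hF hFr
  have key : ∀ j : ℕ, 1 ≤ j → ∃ (F' : (PowerSeries E)[X][X]) (Exc : Finset E),
      Dg (b ^ j) (H ^ j) F' ∧ red F' ≠ 0 ∧ Exc.card ≤ j * (b + H) ∧ ∀ x ∉ Exc, ∀ M : ℕ, 1 ≤ M →
        Va M F x (tw l r τ (h x)) → Va M F' x (tw l (r * j) τ ((h ^ j) x)) := by
    intro j hj
    induction j, hj using Nat.le_induction with
    | base =>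
      refine ⟨F, ∅, ?_, hFr, by simp, ?_⟩
      · rw [pow_one, pow_one]; exact hF
      · intro x _ M _ hv
        rw [mul_one, pow_one]
        exact hv
    | succ j hj ih =>
      obtain ⟨Fj, Ej, d1, d2, d3, d4⟩ := ih
      obtain ⟨F3, E3, e1, e2, e3, e4⟩ := hcomp l r (r * j) b (b ^ j) H (H ^ j) k E τ D hτ h
        (fun x => (h ^ j) x) hh (red F) Fj (Dg_red hF) hFr d1 d2
      classical
      refine ⟨F3, Ej ∪ E3, ?_, e2, ?_, ?_⟩
      · rw [pow_succ', pow_succ']
        exact e1
      · refine (card_union_le _ _).trans ?_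
        calc Ej.card + E3.card ≤ j * (b + H) + (b + H) := Nat.add_le_add d3 e3
          _ = (j + 1) * (b + H) := by ring
      · intro x hx M hM hv
        rw [mem_union, not_or] at hx
        have h1 : (red F).evalEval x (h x ^ l ^ r) = 0 := by
          have := red_zero hM hv
          rwa [constantCoeff_tw l r τ hτ.const] at this
        have h2 := e4 x hx.2 M h1 (d4 x hx.1 M hM hv)
        have h3 : r * (j + 1) = r + r * j := by ring
        have h4 : (h ^ (j + 1)) x = h ((h ^ j) x) := by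
          rw [pow_succ']
          rfl
        rw [h3, h4]
        exact h2
  obtain ⟨F', Exc, q1, q2, q3, q4⟩ := key o ho
  refine ⟨F', Exc, q1, q2, q3, fun x hx M hM hv => ?_⟩
  have := q4 x hx M hM hv
  rwa [hho] at this

/-- the relation as a polynomial -/
noncomputable def rel {E : Type u} [Field E] {a b : ℕ} (c : II a b → PowerSeries E) :
    (PowerSeries E)[X][X] :=
  ∑ j : II a b, C (C (c j) * X ^ (j.1 : ℕ)) * X ^ (j.2 : ℕ)

theorem rel_eval {E : Type u} [Field E] {a b : ℕ} (c : II a b → PowerSeries E) (x y : PowerSeries E) :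
    (rel c).evalEval x y = ∑ j : II a b, c j * x ^ (j.1 : ℕ) * y ^ (j.2 : ℕ) := by
  unfold rel
  rw [evalEval_finsetSum]
  refine sum_congr rfl fun j _ => ?_
  rw [evalEval_mul, evalEval_C, evalEval_pow, evalEval_X, eval_mul, eval_C, eval_pow, eval_X]

theorem rel_coeff {E : Type u} [Field E] {a b : ℕ} (c : II a b → PowerSeries E) (i : ℕ) :
    (rel c).coeff i = ∑ j : II a b, if (j.2 : ℕ) = i then C (c j) * X ^ (j.1 : ℕ) else 0 := by
  unfold rel
  rw [finsetSum_coeff]
  refine sum_congr rfl fun j _ => ?_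
  rw [coeff_C_mul, coeff_X_pow]
  by_cases h : (j.2 : ℕ) = i
  · rw [if_pos h.symm, if_pos h, mul_one]
  · rw [if_neg (fun h' => h h'.symm), if_neg h, mul_zero]

theorem rel_Dg {E : Type u} [Field E] {a b : ℕ} (c : II a b → PowerSeries E) : Dg b a (rel c) := by
  refine ⟨?_, fun i => ?_⟩
  · unfold rel
    refine natDegree_sum_le_of_forall_le _ _ fun j _ => ?_
    refine (natDegree_C_mul_X_pow_le _ _).trans ?_
    exact Nat.lt_succ_iff.mp j.2.2
  · rw [rel_coeff]
    refine natDegree_sum_le_of_forall_le _ _ fun j _ => ?_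
    split_ifs
    · refine (natDegree_C_mul_X_pow_le _ _).trans ?_
      exact Nat.lt_succ_iff.mp j.1.2
    · simp

theorem rel_coeff_coeff {E : Type u} [Field E] {a b : ℕ} (c : II a b → PowerSeries E) (j : II a b) :
    ((rel c).coeff (j.2 : ℕ)).coeff (j.1 : ℕ) = c j := by
  rw [rel_coeff, finsetSum_coeff, Finset.sum_eq_single j]
  · rw [if_pos rfl, coeff_C_mul, coeff_X_pow, if_pos rfl, mul_one]
  · intro i _ hi
    by_cases h2 : (i.2 : ℕ) = (j.2 : ℕ)
    · rw [if_pos h2, coeff_C_mul, coeff_X_pow]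
      have h1 : ¬ ((j.1 : ℕ) = (i.1 : ℕ)) := by
        intro h1
        apply hi
        exact Prod.ext (Fin.ext h1.symm) (Fin.ext h2)
      rw [if_neg h1, mul_zero]
    · rw [if_neg h2, coeff_zero]
  · intro h
    exact absurd (mem_univ _) h

theorem rel_red {E : Type u} [Field E] {a b : ℕ} (c : II a b → PowerSeries E)
    (h : ∃ i, PowerSeries.constantCoeff (c i) ≠ 0) : red (rel c) ≠ 0 := by
  obtain ⟨i, hi⟩ := h
  intro h0
  apply hi
  have h1 : ((red (rel c)).coeff (i.2 : ℕ)).coeff (i.1 : ℕ) = PowerSeries.constantCoeff (c i) := by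
    unfold red
    rw [coeff_map, coe_mapRingHom, coeff_map, rel_coeff_coeff]
  rw [← h1, h0, coeff_zero, coeff_zero]

/-- **(X3)** -/
theorem mt (helm : S_elmP.{u}) (hcom : S_comP.{u}) : S_mtP.{u} := by
  intro l d ν b K' ε hl hd hε
  have hc := fun o : ℕ => hcom l d (b ^ o) K' (ε / 2) hl hd (half_pos hε)
  choose Mf hM using hc
  refine ⟨1 + ∑ o ∈ range (ν + 1), Mf o, fun r a => ?_⟩
  have hN := fun o : ℕ => hM o (r * o) (a ^ o)
  choose Nf hN using hN
  refine ⟨(∑ o ∈ range (ν + 1), Nf o) + ⌈2 * (ν * (b + a) : ℕ) / ε⌉₊, ?_⟩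
  intro k E _ _ _ _ _ τ D hτ p q hpq n x hx hn W hW hWε h o ho hoν hho hh c hc0 hdiv
  obtain ⟨G', Exc, g1, g2, g3, g4⟩ := helm l r b a o k E τ D hτ h ho hho hh (rel c) (rel_Dg c)
    (rel_red c hc0)
  classical
  have hon : o ∈ range (ν + 1) := mem_range.mpr (by omega)
  have hMo : Mf o ≤ 1 + ∑ o ∈ range (ν + 1), Mf o := by
    have := single_le_sum (f := Mf) (fun i _ => Nat.zero_le _) hon
    omega
  have hNo : Nf o ≤ n := by
    have := single_le_sum (f := Nf) (fun i _ => Nat.zero_le _) hon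
    omega
  set W' := W.filter fun i => x i ∉ Exc with hW'
  have hW'W : W' ⊆ W := filter_subset _ _
  -- size of W'
  have hcardE : (W.filter fun i => x i ∈ Exc).card ≤ Exc.card := by
    refine card_le_card_of_injOn x (fun i hi => ?_) ?_
    · rw [mem_coe, mem_filter] at hi
      exact hi.2
    · intro i hi j hj hij
      rw [mem_coe, mem_filter] at hi hj
      exact hx.inj i (mem_range.mp (hW hi.1)) j (mem_range.mp (hW hj.1)) hij
  have hcard : W.card ≤ W'.card + ν * (b + a) := by
    have h1 : (W.filter fun i => x i ∈ Exc).card + W'.card = W.card :=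
      card_filter_add_card_filter_not _
    have h2 : o * (b + a) ≤ ν * (b + a) := Nat.mul_le_mul_right _ hoν
    omega
  have hnR : 2 * ((ν * (b + a) : ℕ) : ℝ) / ε ≤ n := by
    refine (Nat.le_ceil _).trans ?_
    have : ⌈2 * ((ν * (b + a) : ℕ) : ℝ) / ε⌉₊ ≤ n := by omega
    exact_mod_cast this
  have hW'ε : ε / 2 * n ≤ (W'.card : ℝ) := by
    rw [div_le_iff₀ hε] at hnR
    have h3 : (W.card : ℝ) ≤ (W'.card : ℝ) + ((ν * (b + a) : ℕ) : ℝ) := by exact_mod_cast hcard
    nlinarith
  obtain ⟨μ, p₀, q₀, hOv, i, hi, hS⟩ := hN o k E τ D hτ p q hpq n x hx hNo W' (hW'W.trans hW) hW'ε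
    G' g1 g2 (fun i hi => by
      rw [hW', mem_filter] at hi
      have h5 : Va (1 + ∑ o ∈ range (ν + 1), Mf o) (rel c) (x i) (tw l r τ (h (x i))) := by
        unfold Va
        rw [rel_eval]
        exact hdiv i hi.1
      exact Va_mono hMo (g4 (x i) hi.2 _ (by omega) h5))
  exact ⟨μ, p₀, q₀, hOv, i, hW'W hi, hS⟩

end Pool.Agent.Q187.SP
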